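import Mathlib

/-! Closed non-backtracking sequences in a graph and cycles. -/

namespace Pool.Agent.SE.H19

open SimpleGraph

variable {W : Type*} {G : SimpleGraph W}

/-- The walk along a sequence of vertices. -/
def wk (w : ℕ → W) (h : ∀ n, G.Adj (w n) (w (n + 1))) : ∀ a n : ℕ, G.Walk (w a) (w (a + n))
  | _, 0 => Walk.nil
  | a, n + 1 => Walk.cons (h a) ((wk w h (a + 1) n).copy rfl (by rw [Nat.add_assoc, Nat.add_comm 1 n]))

theorem wk_length (w : ℕ → W) (h : ∀ n, G.Adj (w n) (w (n + 1))) (a n : ℕ) :
    (wk w h a n).length = n := by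
  induction n generalizing a with
  | zero => rfl
  | succ n ih => simp only [wk, Walk.length_cons, Walk.length_copy, ih]

theorem wk_support (w : ℕ → W) (h : ∀ n, G.Adj (w n) (w (n + 1))) (a n : ℕ) :
    (wk w h a n).support = (List.range' a (n + 1)).map w := by
  induction n generalizing a with
  | zero => simp [wk]
  | succ n ih =>
    simp only [wk, Walk.support_cons, Walk.support_copy, ih]
    rw [List.range'_succ (s := a) (n := n + 1), List.map_cons]

theorem wk_edges (w : ℕ → W) (h : ∀ n, G.Adj (w n) (w (n + 1))) (a n : ℕ) :
    (wk w h a n).edges = (List.range' a n).map fun i => s(w i, w (i + 1)) := by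
  induction n generalizing a with
  | zero => simp [wk]
  | succ n ih =>
    simp only [wk, Walk.edges_cons, Walk.edges_copy, ih]
    rw [List.range'_succ, List.map_cons]

/-- A closed non-backtracking piece of minimal length is a cycle. -/
theorem cycle_of_min (w : ℕ → W) (h : ∀ n, G.Adj (w n) (w (n + 1)))
    (hnb : ∀ n, w (n + 2) ≠ w n) {a b : ℕ} (hab : a < b) (he : w b = w a)
    (hinj : ∀ i j, a ≤ i → i < j → j ≤ b → w j = w i → i = a ∧ j = b) :
    ∃ (v : W) (c : G.Walk v v), c.IsCycle ∧ c.length = b - a := by
  have hb1 : b ≠ a + 1 := by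
    intro hb
    rw [hb] at he
    exact (h a).ne he.symm
  have hb2 : b ≠ a + 2 := by
    intro hb
    rw [hb] at he
    exact hnb a he
  have hlen : a + 1 + (b - a - 1) = b := by omega
  refine ⟨w a, Walk.cons (h a) ((wk w h (a + 1) (b - a - 1)).copy rfl (by rw [hlen, he])), ?_, ?_⟩
  · rw [Walk.cons_isCycle_iff]
    constructor
    · rw [Walk.isPath_def, Walk.support_copy, wk_support]
      refine List.Nodup.map_on ?_ List.nodup_range'
      intro x hx y hy hxy
      rw [List.mem_range'_1] at hx hy
      rcases lt_trichotomy x y with hlt | hlt | hlt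
      · have := hinj x y (by omega) hlt (by omega) hxy.symm
        omega
      · exact hlt
      · have := hinj y x (by omega) hlt (by omega) hxy
        omega
    · rw [Walk.edges_copy, wk_edges, List.mem_map]
      rintro ⟨i, hi, hie⟩
      rw [List.mem_range'_1] at hi
      rw [Sym2.eq_iff] at hie
      rcases hie with ⟨h1, _⟩ | ⟨h1, h2⟩
      · have := hinj a i le_rfl (by omega) (by omega) h1
        omega
      · rcases Nat.eq_or_lt_of_le hi.1 with h3 | h3
        · subst h3
          exact hnb a h2
        · have := hinj (a + 1) i (by omega) h3 (by omega) h1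
          omega
  · rw [Walk.length_cons, Walk.length_copy, wk_length]
    omega

/-- If all cycles have length at least `k`, then a non-backtracking sequence returns only after at
least `k` steps. -/
theorem ret_ge (k : ℕ) (hk : ∀ (v : W) (c : G.Walk v v), c.IsCycle → k ≤ c.length)
    (w : ℕ → W) (h : ∀ n, G.Adj (w n) (w (n + 1))) (hnb : ∀ n, w (n + 2) ≠ w n) :
    ∀ a b : ℕ, a < b → w b = w a → k ≤ b - a := by
  have key : ∀ l a b : ℕ, b - a = l → a < b → w b = w a → k ≤ b - a := by
    intro l
    induction l using Nat.strong_induction_on with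
    | _ l ih =>
      intro a b hl hab he
      by_cases hinj : ∀ i j, a ≤ i → i < j → j ≤ b → w j = w i → i = a ∧ j = b
      · obtain ⟨v, c, hc, hlen⟩ := cycle_of_min w h hnb hab he hinj
        rw [← hlen]
        exact hk v c hc
      · simp only [not_forall] at hinj
        obtain ⟨i, j, h1, h2, h3, h4, h5⟩ := hinj
        have h6 : j - i < l := by omega
        have := ih (j - i) h6 i j rfl h2 h4
        omega
  intro a b hab he
  exact key (b - a) a b rfl hab he

/-- A cycle gives a periodic non-backtracking sequence. -/
theorem seq_of_cycle {v : W} (c : G.Walk v v) (hc : c.IsCycle) :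
    3 ≤ c.length ∧ ∃ w : ℕ → W, (∀ n, w n = c.getVert (n % c.length)) ∧
      (∀ n, G.Adj (w n) (w (n + 1))) ∧ (∀ n, w (n + 2) ≠ w n) ∧
      ∀ n, w (n + c.length) = w n := by
  have h3 := hc.three_le_length
  refine ⟨h3, fun n => c.getVert (n % c.length), fun n => rfl, ?_, ?_, ?_⟩
  · intro n
    have hn : n % c.length < c.length := Nat.mod_lt _ (by omega)
    by_cases hlast : n % c.length + 1 < c.length
    · have e : (n + 1) % c.length = n % c.length + 1 := by
        rw [Nat.add_mod, Nat.mod_eq_of_lt (show 1 < c.length by omega), Nat.mod_eq_of_lt hlast]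
      show G.Adj (c.getVert (n % c.length)) (c.getVert ((n + 1) % c.length))
      rw [e]
      exact c.adj_getVert_succ hn
    · have e0 : n % c.length + 1 = c.length := by omega
      have e : (n + 1) % c.length = 0 := by
        rw [Nat.add_mod, Nat.mod_eq_of_lt (show 1 < c.length by omega), e0, Nat.mod_self]
      show G.Adj (c.getVert (n % c.length)) (c.getVert ((n + 1) % c.length))
      have h1 := c.adj_getVert_succ hn
      rw [e0, Walk.getVert_length] at h1
      rw [e, Walk.getVert_zero]
      exact h1
  · intro n hcontra
    have hcontra' : c.getVert ((n + 2) % c.length) = c.getVert (n % c.length) := hcontra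
    have h1 : (n + 2) % c.length < c.length := Nat.mod_lt _ (by omega)
    have h2 : n % c.length < c.length := Nat.mod_lt _ (by omega)
    have h4 := hc.getVert_injOn' (show (n + 2) % c.length ∈ {i | i ≤ c.length - 1} by
      show (n + 2) % c.length ≤ c.length - 1
      omega) (show n % c.length ∈ {i | i ≤ c.length - 1} by
      show n % c.length ≤ c.length - 1
      omega) hcontra'
    have h5 : (n + 2) ≡ n [MOD c.length] := h4
    have h6 : 2 ≡ 0 [MOD c.length] := by
      have : n + 2 ≡ n + 0 [MOD c.length] := h5
      exact Nat.ModEq.add_left_cancel' n this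
    have h7 : c.length ∣ 2 := (Nat.modEq_zero_iff_dvd).mp h6
    have h8 := Nat.le_of_dvd (by norm_num) h7
    omega
  · intro n
    show c.getVert ((n + c.length) % c.length) = c.getVert (n % c.length)
    rw [Nat.add_mod_right]

end Pool.Agent.SE.H19
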